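import Mathlib

namespace Pool.Agent.H.MP_02e1b1_nt
open Finset

lemma mertens (y : ℕ) :
    Real.log (y + 1) ≤ 2 * Real.exp (∑ p ∈ (Icc 1 y).filter Nat.Prime, (1 / p : ℝ)) := by
  set P := (Icc 1 y).filter Nat.Prime with hP
  have h1 : Real.log (y + 1) ≤ ∑ n ∈ Icc 1 y, (1 / n : ℝ) := by
    have := log_add_one_le_harmonic y
    rw [harmonic_eq_sum_Icc] at this
    push_cast at this
    simpa using this
  have h2 : Icc 1 y ⊆ (P.powerset ×ˢ Icc 1 y).image fun x => x.2 ^ 2 * ∏ p ∈ x.1, p := by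
    intro n hn
    rw [mem_Icc] at hn
    obtain ⟨a, b, hab, ha⟩ := Nat.sq_mul_squarefree n
    have b0 : b ≠ 0 := by rintro rfl; simp at hab; omega
    have a0 : a ≠ 0 := ha.ne_zero
    refine mem_image.2 ⟨(a.primeFactors, b), mem_product.2 ⟨mem_powerset.2 fun p hp => ?_, ?_⟩, ?_⟩
    · have hp' := Nat.prime_of_mem_primeFactors hp
      refine mem_filter.2 ⟨mem_Icc.2 ⟨hp'.one_le, ?_⟩, hp'⟩
      exact (Nat.le_of_dvd (by omega) ((Nat.dvd_of_mem_primeFactors hp).trans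
        (Dvd.intro_left _ hab))).trans hn.2
    · refine mem_Icc.2 ⟨Nat.pos_of_ne_zero b0, ?_⟩
      exact (Nat.le_of_dvd (by omega) ((dvd_pow_self b two_ne_zero).trans
        (Dvd.intro _ hab))).trans hn.2
    · simp only [Nat.prod_primeFactors_of_squarefree ha, hab]
  have h3 : ∑ n ∈ Icc 1 y, (1 / n : ℝ) ≤
      (∑ t ∈ P.powerset, ∏ p ∈ t, (1 / p : ℝ)) * ∑ b ∈ Icc 1 y, ((b : ℝ) ^ 2)⁻¹ := by
    refine (sum_le_sum_of_subset_of_nonneg h2 fun _ _ _ => by positivity).trans ?_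
    refine (sum_image_le_of_nonneg fun _ _ => by positivity).trans (le_of_eq ?_)
    rw [sum_product, sum_mul_sum]
    refine sum_congr rfl fun t _ => sum_congr rfl fun b _ => ?_
    push_cast
    simp only [one_div, prod_inv_distrib, mul_inv]; ring
  have h4 : ∑ b ∈ Icc 1 y, ((b : ℝ) ^ 2)⁻¹ ≤ 2 := by
    rcases Nat.eq_zero_or_pos y with rfl | hy
    · simp
    · have := sum_Ioc_inv_sq_le_sub (α := ℝ) one_ne_zero hy
      rw [← Ioc_insert_left hy, sum_insert (by simp)]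
      have : (0 : ℝ) ≤ (y : ℝ)⁻¹ := by positivity
      simp only [Nat.cast_one, one_pow, inv_one] at *
      linarith
  have h5 : ∑ t ∈ P.powerset, ∏ p ∈ t, (1 / p : ℝ) ≤ Real.exp (∑ p ∈ P, (1 / p : ℝ)) := by
    rw [← prod_one_add, Real.exp_sum]
    exact prod_le_prod (fun _ _ => by positivity) fun p _ => by
      rw [add_comm]; exact Real.add_one_le_exp _
  calc _ ≤ _ := h1.trans h3
    _ ≤ Real.exp (∑ p ∈ P, (1 / p : ℝ)) * 2 := by gcongr
    _ = _ := mul_comm _ _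

lemma cnt (a b M : ℕ) {d : ℕ} (hd : 0 < d) (h : Nat.Coprime a d) :
    |(#{m ∈ Ioc 0 M | d ∣ a * m + b} : ℝ) - M / d| ≤ 1 := by
  obtain ⟨r, hr⟩ : ∃ r, d ∣ a * r + b := by
    obtain ⟨c, -, hc⟩ := Nat.exists_mul_mod_eq_of_coprime ((d - 1) * b) h hd.ne'
    refine ⟨c, ?_⟩
    have : a * c + b ≡ (d - 1) * b + b [MOD d] := Nat.ModEq.add_right b hc
    rw [show (d - 1) * b + b = d * b by
      obtain ⟨e, rfl⟩ := Nat.exists_eq_add_of_le' hd; simp; ring] at this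
    exact (Nat.modEq_zero_iff_dvd.1 (this.trans (Nat.modEq_zero_iff_dvd.2 (dvd_mul_right _ _))))
  have e : {m ∈ Ioc 0 M | d ∣ a * m + b} = {m ∈ Ioc 0 M | m ≡ r [MOD d]} := by
    refine filter_congr fun m _ => ⟨fun hm => ?_, fun hm => ?_⟩
    · have : a * m + b ≡ a * r + b [MOD d] :=
        (Nat.modEq_zero_iff_dvd.2 hm).trans (Nat.modEq_zero_iff_dvd.2 hr).symm
      exact Nat.ModEq.cancel_left_of_coprime h.symm (Nat.ModEq.add_right_cancel' b this)
    · exact Nat.modEq_zero_iff_dvd.1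
        (((hm.mul_left a).add_right b).trans (Nat.modEq_zero_iff_dvd.2 hr))
  rw [e]
  have k := Nat.Ioc_filter_modEq_card 0 M hd r
  have d0 : (0 : ℚ) < d := by exact_mod_cast hd
  rw [max_eq_left (sub_nonneg.2 (Int.floor_le_floor (by gcongr; positivity)))] at k
  have f1 := Int.floor_le (((M : ℚ) - r) / d)
  have f2 := Int.lt_floor_add_one (((M : ℚ) - r) / d)
  have f3 := Int.floor_le ((((0 : ℕ) : ℚ) - r) / d)
  have f4 := Int.lt_floor_add_one ((((0 : ℕ) : ℚ) - r) / d)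
  have k' : (#{m ∈ Ioc 0 M | m ≡ r [MOD d]} : ℚ) =
      ⌊((M : ℚ) - r) / d⌋ - ⌊(((0 : ℕ) : ℚ) - r) / d⌋ := by exact_mod_cast k
  have e2 : ((M : ℚ) - r) / d = M / d + (((0 : ℕ) : ℚ) - r) / d := by push_cast; ring
  have : |(#{m ∈ Ioc 0 M | m ≡ r [MOD d]} : ℚ) - M / d| ≤ 1 := by
    rw [abs_le]; constructor <;> linarith
  have := (Rat.cast_le (K := ℝ)).2 this
  push_cast at this
  exact this

lemma turan (a b M y : ℕ) (P : Finset ℕ) (hP : ∀ p ∈ P, p.Prime ∧ p ≤ y ∧ Nat.Coprime a p)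
    (hy : y ^ 2 ≤ M) :
    ∑ m ∈ Ioc 0 M, ((#{p ∈ P | p ∣ a * m + b} : ℝ) - ∑ p ∈ P, (1 / p : ℝ)) ^ 2 ≤
      M * (∑ p ∈ P, (1 / p : ℝ) + 4) := by
  set S := ∑ p ∈ P, (1 / p : ℝ) with hS
  have cP : (#P : ℝ) ≤ y := by
    have : P ⊆ Ioc 0 y := fun p hp => mem_Ioc.2 ⟨(hP p hp).1.pos, (hP p hp).2.1⟩
    have := card_le_card this
    simp only [Nat.card_Ioc, tsub_zero] at this
    exact_mod_cast this
  have S0 : 0 ≤ S := sum_nonneg fun _ _ => by positivity
  have S1 : S ≤ #P := by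
    refine (sum_le_card_nsmul _ _ 1 fun p hp => ?_).trans (by simp)
    have : (1 : ℝ) ≤ p := by exact_mod_cast (hP p hp).1.one_le
    exact (div_le_one (by linarith)).2 this
  have f1 : ∀ m, (#{p ∈ P | p ∣ a * m + b} : ℝ) = ∑ p ∈ P, if p ∣ a * m + b then 1 else 0 := by
    intro m; rw [card_filter]; push_cast; rfl
  have g1 : ∀ d, (#{m ∈ Ioc 0 M | d ∣ a * m + b} : ℝ) =
      ∑ m ∈ Ioc 0 M, if d ∣ a * m + b then 1 else 0 := by
    intro m; rw [card_filter]; push_cast; rfl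
  have e1 : M * S - #P ≤ ∑ m ∈ Ioc 0 M, (#{p ∈ P | p ∣ a * m + b} : ℝ) := by
    simp only [f1]
    rw [sum_comm, hS, mul_sum, card_eq_sum_ones]
    push_cast
    rw [← sum_sub_distrib]
    refine sum_le_sum fun p hp => ?_
    rw [← g1]
    have := (abs_le.1 (cnt a b M (hP p hp).1.pos (hP p hp).2.2)).1
    rw [mul_one_div]; linarith
  have e2 : ∑ m ∈ Ioc 0 M, (#{p ∈ P | p ∣ a * m + b} : ℝ) ^ 2 ≤
      M * S + M * S ^ 2 + #P * #P := by
    simp only [f1, sq, sum_mul_sum]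
    rw [sum_comm]
    have : ∀ p ∈ P, ∑ m ∈ Ioc 0 M, ∑ q ∈ P, ((if p ∣ a * m + b then 1 else 0) *
        if q ∣ a * m + b then (1 : ℝ) else 0) ≤ M * (1 / p) + M * ((1 / p) * S) + #P := by
      intro p hp
      rw [sum_comm]
      have : ∀ q ∈ P, ∑ m ∈ Ioc 0 M, ((if p ∣ a * m + b then 1 else 0) *
          if q ∣ a * m + b then (1 : ℝ) else 0) ≤
          (if q = p then M * (1 / p : ℝ) else 0) + M * ((1 / p) * (1 / q)) + 1 := by
        intro q hq
        by_cases hqp : q = p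
        · subst hqp
          have := (abs_le.1 (cnt a b M (hP q hq).1.pos (hP q hq).2.2)).2
          rw [g1] at this
          have e : ∀ m, ((if q ∣ a * m + b then 1 else 0) *
              if q ∣ a * m + b then (1 : ℝ) else 0) = if q ∣ a * m + b then 1 else 0 := by
            intro m; split_ifs <;> simp
          simp only [e, if_true]
          have : (0 : ℝ) ≤ M * (1 / q * (1 / q)) := by positivity
          rw [mul_one_div]; linarith
        · have co : Nat.Coprime p q := (Nat.coprime_primes (hP p hp).1 (hP q hq).1).2 (Ne.symm hqp)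
          have := (abs_le.1 (cnt a b M (Nat.mul_pos (hP p hp).1.pos (hP q hq).1.pos)
            (Nat.Coprime.mul_right (hP p hp).2.2 (hP q hq).2.2))).2
          rw [g1] at this
          have e : ∀ m, ((if p ∣ a * m + b then 1 else 0) *
              if q ∣ a * m + b then (1 : ℝ) else 0) = if p * q ∣ a * m + b then 1 else 0 := by
            intro m
            by_cases h1 : p ∣ a * m + b <;> by_cases h2 : q ∣ a * m + b
            · simp [h1, h2, co.mul_dvd_of_dvd_of_dvd h1 h2]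
            · simp [h2, mt (dvd_of_mul_left_dvd (a := p)) h2]
            · simp [h1, mt (dvd_of_mul_right_dvd (b := q)) h1]
            · simp [h1, mt (dvd_of_mul_right_dvd (b := q)) h1]
          simp only [e, if_neg hqp]
          push_cast at this
          rw [show (M : ℝ) * (1 / p * (1 / q)) = M / (p * q) by ring]; linarith
      refine (sum_le_sum this).trans (le_of_eq ?_)
      rw [sum_add_distrib, sum_add_distrib, sum_ite_eq' P p, if_pos hp, ← mul_sum, ← mul_sum]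
      simp [hS]
    refine (sum_le_sum this).trans (le_of_eq ?_)
    rw [sum_add_distrib, sum_add_distrib, ← mul_sum, ← mul_sum, ← sum_mul]
    simp [hS]
  have e3 : ∑ m ∈ Ioc 0 M, ((#{p ∈ P | p ∣ a * m + b} : ℝ) - S) ^ 2 =
      ∑ m ∈ Ioc 0 M, (#{p ∈ P | p ∣ a * m + b} : ℝ) ^ 2 -
        2 * S * ∑ m ∈ Ioc 0 M, (#{p ∈ P | p ∣ a * m + b} : ℝ) + M * S ^ 2 := by
    rw [mul_sum, ← sum_sub_distrib]
    have : (M : ℝ) * S ^ 2 = ∑ _m ∈ Ioc 0 M, S ^ 2 := by simp
    rw [this, ← sum_add_distrib]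
    exact sum_congr rfl fun _ _ => by ring
  have hy' : (y : ℝ) ^ 2 ≤ M := by exact_mod_cast hy
  have c0 : (0 : ℝ) ≤ #P := by positivity
  have k1 : (#P : ℝ) * #P ≤ M := by nlinarith
  have k2 : S * #P ≤ M := by nlinarith
  rw [e3]
  nlinarith [mul_le_mul_of_nonneg_left e1 S0]

lemma cheb (a b M y : ℕ) (P : Finset ℕ) (hP : ∀ p ∈ P, p.Prime ∧ p ≤ y ∧ Nat.Coprime a p)
    (hy : y ^ 2 ≤ M) (hS : 200 ≤ ∑ p ∈ P, (1 / p : ℝ)) :
    (#{m ∈ Ioc 0 M | (#{p ∈ P | p ∣ a * m + b} : ℝ) ≤ 4 / 5 * ∑ p ∈ P, (1 / p : ℝ)} : ℝ) ≤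
      M / 4 := by
  have h := turan a b M y P hP hy
  set S := ∑ p ∈ P, (1 / p : ℝ)
  have h2 := card_nsmul_le_sum
    {m ∈ Ioc 0 M | (#{p ∈ P | p ∣ a * m + b} : ℝ) ≤ 4 / 5 * S}
    (fun m => ((#{p ∈ P | p ∣ a * m + b} : ℝ) - S) ^ 2) ((S / 5) ^ 2) (fun m hm => by
      have := (mem_filter.1 hm).2
      nlinarith)
  have h3 := h2.trans ((sum_le_sum_of_subset_of_nonneg (filter_subset _ _)
    fun _ _ _ => by positivity).trans h)
  rw [nsmul_eq_mul] at h3
  have M0 : (0 : ℝ) ≤ M := by positivity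
  have : (0 : ℝ) < (S / 5) ^ 2 := by positivity
  refine le_of_mul_le_mul_right (h3.trans ?_) this
  have : S + 4 ≤ (S / 5) ^ 2 / 4 := by nlinarith
  nlinarith

end Pool.Agent.H.MP_02e1b1_nt
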