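import Mathlib

namespace Pool.Agent.H.MP_02e1b1_nt
open ProbabilityTheory

/-- The normalised number of distinct prime factors of `⌊α n² + β n + γ⌋`. -/
noncomputable def X (α β γ : ℝ) (N n : ℕ) : ℝ :=
  ((⌊α * n ^ 2 + β * n + γ⌋₊.primeFactors.card : ℝ) - Real.log (Real.log N)) /
    √(Real.log (Real.log N))

open Classical in
/-- Kolmogorov distance between `X α β γ N n`, `n` uniform on `{1,…,N}`, and a standard
normal variable. -/
noncomputable def dK (α β γ : ℝ) (N : ℕ) : ℝ :=
  ⨆ x : ℝ, |(((Finset.Icc 1 N).filter fun n => X α β γ N n ≤ x).card : ℝ) / N -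
    cdf (gaussianReal 0 1) x|

end Pool.Agent.H.MP_02e1b1_nt
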