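import Pool.Agent.H.MP_02e1b1_nt.A
import Pool.Agent.H.MP_02e1b1_nt.Defs

namespace Pool.Agent.H.MP_02e1b1_nt
open Finset Filter ProbabilityTheory Topology

lemma S_ge (a q M : ℕ) (ha : 0 < a) (hq : 0 < q) (hM : q ≤ M) (h2 : 2 ≤ M) :
    Real.log (Real.log (q * M : ℕ)) - (a + 7) ≤
      ∑ p ∈ ((Icc 1 M.sqrt).filter Nat.Prime).filter (fun p => ¬p ∣ a), (1 / p : ℝ) := by
  have h1 := mertens M.sqrt
  have h3 := sum_filter_add_sum_filter_not ((Icc 1 M.sqrt).filter Nat.Prime) (fun p => p ∣ a)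
    (fun p => (1 / p : ℝ))
  have h4 : ∑ p ∈ ((Icc 1 M.sqrt).filter Nat.Prime).filter (fun p => p ∣ a), (1 / p : ℝ) ≤ a := by
    refine (sum_le_card_nsmul _ _ 1 fun p hp => ?_).trans ?_
    · have : (1 : ℝ) ≤ p := by exact_mod_cast (mem_filter.1 (mem_filter.1 hp).1).2.one_le
      exact (div_le_one (by linarith)).2 this
    · have : ((Icc 1 M.sqrt).filter Nat.Prime).filter (fun p => p ∣ a) ⊆ Ioc 0 a := fun p hp =>
        mem_Ioc.2 ⟨(mem_filter.1 (mem_filter.1 hp).1).2.pos, Nat.le_of_dvd ha (mem_filter.1 hp).2⟩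
      have := card_le_card this
      simp only [Nat.card_Ioc, tsub_zero] at this
      simp only [nsmul_eq_mul, mul_one]
      exact_mod_cast this
  have h5 : Real.log (q * M : ℕ) ≤ 4 * Real.log (M.sqrt + 1) := by
    have e : (4 : ℝ) * Real.log (M.sqrt + 1) = Real.log (((M.sqrt + 1) ^ 4 : ℕ) : ℝ) := by
      push_cast; rw [Real.log_pow]; norm_num
    rw [e]
    refine Real.log_le_log (by positivity) (Nat.cast_le.2 ?_)
    have := (Nat.lt_succ_sqrt' M).le
    calc q * M ≤ M * M := by gcongr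
      _ ≤ (M.sqrt + 1) ^ 2 * (M.sqrt + 1) ^ 2 := by gcongr
      _ = _ := by ring
  have h6 : 0 < Real.log (q * M : ℕ) :=
    Real.log_pos (by exact_mod_cast (by nlinarith : 1 < q * M))
  have h7 : Real.log (Real.log (q * M : ℕ)) ≤
      7 + ∑ p ∈ (Icc 1 M.sqrt).filter Nat.Prime, (1 / p : ℝ) := by
    rw [Real.log_le_iff_le_exp h6, Real.exp_add]
    have := Real.add_one_le_exp 7
    have := Real.exp_pos (∑ p ∈ (Icc 1 M.sqrt).filter Nat.Prime, (1 / p : ℝ))
    nlinarith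
  linarith

lemma many (a q : ℕ) (ha : 0 < a) (hq : 0 < q) (x : ℝ) : ∀ᶠ M : ℕ in atTop,
    (M : ℝ) / 2 ≤ #{m ∈ Ioc 0 M | x < (((q * m * (a * m + 1)).primeFactors.card : ℝ) -
      Real.log (Real.log (q * M : ℕ))) / √(Real.log (Real.log (q * M : ℕ)))} := by
  have t : Tendsto (fun M : ℕ => √(Real.log (Real.log (q * M : ℕ)))) atTop atTop :=
    Real.tendsto_sqrt_atTop.comp (Real.tendsto_log_atTop.comp (Real.tendsto_log_atTop.comp
      (tendsto_natCast_atTop_atTop.comp (tendsto_id.const_mul_atTop' hq))))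
  filter_upwards [eventually_ge_atTop q, eventually_ge_atTop 2,
    t.eventually_ge_atTop (5 * |x| + 5 * (a + 7) + 200)] with M h1 h2 h3
  have hS := S_ge a q M ha hq h1 h2
  set L := Real.log (Real.log (q * M : ℕ))
  set P := ((Icc 1 M.sqrt).filter Nat.Prime).filter (fun p => ¬p ∣ a) with hP
  set S := ∑ p ∈ P, (1 / p : ℝ)
  have x0 := abs_nonneg x
  have a0 : (0 : ℝ) ≤ a := by positivity
  have s0 : 0 < √L := by linarith
  have L0 : 0 < L := Real.sqrt_pos.1 s0
  have sq : √L * √L = L := Real.mul_self_sqrt L0.le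
  have S2 : 200 ≤ S := by nlinarith
  have key : L + x * √L < 8 / 5 * S := by nlinarith [le_abs_self x]
  have pr : ∀ p ∈ P, p.Prime ∧ p ≤ M.sqrt := fun p hp =>
    ⟨(mem_filter.1 (mem_filter.1 hp).1).2, (mem_Icc.1 (mem_filter.1 (mem_filter.1 hp).1).1).2⟩
  have c1 := cheb 1 0 M M.sqrt P (fun p hp => ⟨(pr p hp).1, (pr p hp).2, by simp⟩)
    (Nat.sqrt_le' M) S2
  have c2 := cheb a 1 M M.sqrt P (fun p hp => ⟨(pr p hp).1, (pr p hp).2,
    ((Nat.Prime.coprime_iff_not_dvd (pr p hp).1).2 (mem_filter.1 hp).2).symm⟩) (Nat.sqrt_le' M) S2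
  have sub : Ioc 0 M ⊆ {m ∈ Ioc 0 M | x < (((q * m * (a * m + 1)).primeFactors.card : ℝ) - L) / √L}
      ∪ ({m ∈ Ioc 0 M | (#{p ∈ P | p ∣ 1 * m + 0} : ℝ) ≤ 4 / 5 * S} ∪
        {m ∈ Ioc 0 M | (#{p ∈ P | p ∣ a * m + 1} : ℝ) ≤ 4 / 5 * S}) := by
    intro m hm
    by_contra hc
    simp only [mem_union, mem_filter, hm, true_and, not_or, not_lt, not_le] at hc
    obtain ⟨b1, b2, b3⟩ := hc
    have m0 : 0 < m := (mem_Ioc.1 hm).1
    have : #{p ∈ P | p ∣ 1 * m + 0} + #{p ∈ P | p ∣ a * m + 1} ≤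
        (q * m * (a * m + 1)).primeFactors.card := by
      rw [← card_union_of_disjoint]
      · refine card_le_card fun p hp => ?_
        rcases mem_union.1 hp with hp | hp
        · obtain ⟨p1, p2⟩ := mem_filter.1 hp
          exact Nat.mem_primeFactors.2 ⟨(pr p p1).1,
            Dvd.dvd.mul_right (Dvd.dvd.mul_left (by simpa using p2) _) _, by positivity⟩
        · obtain ⟨p1, p2⟩ := mem_filter.1 hp
          exact Nat.mem_primeFactors.2 ⟨(pr p p1).1, Dvd.dvd.mul_left p2 _, by positivity⟩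
      · refine disjoint_left.2 fun p h1 h2 => ?_
        rw [mem_filter] at h1 h2
        have d1 : p ∣ a * m := Dvd.dvd.mul_left (by simpa using h1.2) _
        exact (pr p h1.1).1.one_lt.ne' (Nat.dvd_one.1 ((Nat.dvd_add_right d1).1 h2.2))
    have : (#{p ∈ P | p ∣ 1 * m + 0} : ℝ) + #{p ∈ P | p ∣ a * m + 1} ≤
        (q * m * (a * m + 1)).primeFactors.card := by exact_mod_cast this
    rw [div_le_iff₀ s0] at b1
    linarith
  have := (card_le_card sub).trans ((card_union_le _ _).trans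
    (Nat.add_le_add_left (card_union_le _ _) _))
  rw [Nat.card_Ioc, tsub_zero] at this
  have := (Nat.cast_le (α := ℝ)).2 this
  push_cast at this
  linarith

lemma near (a q : ℕ) (ha : 0 < a) (hq : 0 < q) : ∀ᶠ M : ℕ in atTop, ∀ α : ℝ,
    |α - a / q| < 1 / (2 * (q * M : ℕ) ^ 2) → 1 / (4 * q) ≤ dK α 1 (1 / 2) (q * M) := by
  classical
  have q0 : (0 : ℝ) < q := by exact_mod_cast hq
  obtain ⟨x, hx⟩ := ((tendsto_cdf_atTop (gaussianReal 0 1)).eventually
    (lt_mem_nhds (show 1 - 1 / (4 * q : ℝ) < 1 by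
      have : (0 : ℝ) < 1 / (4 * q) := by positivity
      linarith))).exists
  filter_upwards [many a q ha hq x, eventually_gt_atTop 0] with M hM M0 α hα
  have N0 : (0 : ℝ) < (q * M : ℕ) := by positivity
  have fl : ∀ m ∈ Ioc 0 M, ⌊α * (q * m : ℕ) ^ 2 + 1 * (q * m : ℕ) + 1 / 2⌋₊ =
      q * m * (a * m + 1) := by
    intro m hm
    have m1 : ((q * m : ℕ) : ℝ) ^ 2 ≤ (q * M : ℕ) ^ 2 := by
      gcongr; exact (mem_Ioc.1 hm).2
    have e : α * (q * m : ℕ) ^ 2 + 1 * (q * m : ℕ) + 1 / 2 =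
        (q * m * (a * m + 1) : ℕ) + (1 / 2 + (α - a / q) * (q * m : ℕ) ^ 2) := by
      push_cast; field_simp; ring
    have b : |(α - a / q) * (q * m : ℕ) ^ 2| < 1 / 2 := by
      rw [abs_mul, abs_of_nonneg (by positivity : (0 : ℝ) ≤ ((q * m : ℕ) : ℝ) ^ 2)]
      rw [lt_div_iff₀ (by positivity)] at hα
      nlinarith [abs_nonneg (α - a / q)]
    rw [abs_lt] at b
    rw [e, Nat.floor_eq_iff (by have : (0 : ℝ) ≤ (q * m * (a * m + 1) : ℕ) := by positivity
                                linarith)]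
    constructor <;> linarith
  have hc : #{n ∈ Icc 1 (q * M) | X α 1 (1 / 2) (q * M) n ≤ x} +
      #{m ∈ Ioc 0 M | x < (((q * m * (a * m + 1)).primeFactors.card : ℝ) -
      Real.log (Real.log (q * M : ℕ))) / √(Real.log (Real.log (q * M : ℕ)))} ≤ q * M := by
    have := card_filter_add_card_filter_not (s := Icc 1 (q * M))
      (fun n => X α 1 (1 / 2) (q * M) n ≤ x)
    rw [Nat.card_Icc, add_tsub_cancel_right] at this
    refine le_trans (Nat.add_le_add_left ?_ _) this.le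
    refine card_le_card_of_injOn (fun m => q * m) (fun m hm => ?_)
      (fun m _ m' _ h => Nat.eq_of_mul_eq_mul_left hq h)
    simp only [coe_filter, Set.mem_setOf_eq, not_le] at hm ⊢
    have m1 := mem_Ioc.1 hm.1
    refine ⟨mem_Icc.2 ⟨Nat.mul_pos hq m1.1, Nat.mul_le_mul_left _ m1.2⟩, ?_⟩
    unfold X
    rw [fl m hm.1]; exact hm.2
  have hc' := (Nat.cast_le (α := ℝ)).2 hc
  rw [Nat.cast_add] at hc'
  have hb : BddAbove (Set.range fun x : ℝ =>
      |(#{n ∈ Icc 1 (q * M) | X α 1 (1 / 2) (q * M) n ≤ x} : ℝ) / (q * M : ℕ) -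
        cdf (gaussianReal 0 1) x|) := by
    refine ⟨1, ?_⟩
    rintro _ ⟨z, rfl⟩
    have u1 : (#{n ∈ Icc 1 (q * M) | X α 1 (1 / 2) (q * M) n ≤ z} : ℝ) / (q * M : ℕ) ≤ 1 := by
      rw [div_le_one N0]
      exact Nat.cast_le.2 ((card_filter_le _ _).trans (by simp))
    have u0 : 0 ≤ (#{n ∈ Icc 1 (q * M) | X α 1 (1 / 2) (q * M) n ≤ z} : ℝ) / (q * M : ℕ) := by
      positivity
    have := cdf_nonneg (gaussianReal 0 1) z
    have := cdf_le_one (gaussianReal 0 1) z
    rw [abs_le]; constructor <;> linarith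
  refine le_trans ?_ (le_ciSup hb x)
  refine le_trans ?_ (neg_le_abs _)
  have : (#{n ∈ Icc 1 (q * M) | X α 1 (1 / 2) (q * M) n ≤ x} : ℝ) / (q * M : ℕ) ≤
      1 - 1 / (2 * q) := by
    rw [div_le_iff₀ N0]
    have : (1 - 1 / (2 * q : ℝ)) * (q * M : ℕ) = (q * M : ℕ) - M / 2 := by
      push_cast; field_simp
    linarith
  have : 1 / (2 * q : ℝ) = 1 / (4 * q) + 1 / (4 * q) := by field_simp; ring
  linarith

theorem main (η : ℕ → ℝ) (hη : Tendsto η atTop (𝓝 0)) :
    ∃ α : ℝ, 1 / 2 < α ∧ Irrational α ∧ ¬(dK α 1 (1 / 2) =O[atTop] η) := by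
  have key : ∀ k : ℕ, ∀ᶠ α in residual ℝ, α ≤ 1 / 2 ∨
      ∃ N ≥ k, k * |η N| < dK α 1 (1 / 2) N := by
    intro k
    refine mem_of_superset (residual_of_dense_open isOpen_interior ?_) interior_subset
    refine fun z => mem_closure_iff_nhds.2 fun U hU => ?_
    obtain ⟨l, u, hz, hU⟩ := mem_nhds_iff_exists_Ioo_subset.1 hU
    rcases lt_or_ge l (1 / 2) with h | h
    · obtain ⟨w, w1, w2⟩ := exists_between (lt_min h (hz.1.trans hz.2))
      refine ⟨w, hU ⟨w1, w2.trans_le (min_le_right _ _)⟩, mem_interior_iff_mem_nhds.2 ?_⟩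
      exact mem_of_superset (Iio_mem_nhds (w2.trans_le (min_le_left _ _)))
        fun α hα => Or.inl (le_of_lt hα)
    · obtain ⟨r, r1, r2⟩ := exists_rat_btwn (hz.1.trans hz.2)
      have r0 : 0 < r := by exact_mod_cast (by linarith : (0 : ℝ) < r)
      obtain ⟨a, ha⟩ : ∃ a : ℕ, (a : ℤ) = r.num :=
        ⟨r.num.toNat, Int.toNat_of_nonneg (Rat.num_pos.2 r0).le⟩
      have a0 : 0 < a := by have := Rat.num_pos.2 r0; omega
      have er : (r : ℝ) = a / r.den := by
        rw [Rat.cast_def, ← ha]; simp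
      have q0 : (0 : ℝ) < r.den := by exact_mod_cast r.den_pos
      have t : Tendsto (fun M : ℕ => r.den * M) atTop atTop :=
        tendsto_id.const_mul_atTop' r.den_pos
      have t2 : Tendsto (fun M : ℕ => (k : ℝ) * |η (r.den * M)|) atTop (𝓝 0) := by
        simpa using ((hη.comp t).abs).const_mul (k : ℝ)
      obtain ⟨M, m1, m2, m3, m4⟩ := ((near a r.den a0 r.den_pos).and ((t.eventually_ge_atTop k).and
        ((t2.eventually (gt_mem_nhds (show (0 : ℝ) < 1 / (4 * r.den) by positivity))).and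
          (eventually_gt_atTop 0)))).exists
      refine ⟨r, hU ⟨r1, r2⟩, mem_interior_iff_mem_nhds.2 ?_⟩
      have d0 : (0 : ℝ) < 1 / (2 * (r.den * M : ℕ) ^ 2) := by
        have := r.den_pos
        positivity
      refine mem_of_superset (Metric.ball_mem_nhds _ d0) fun α hα => Or.inr ⟨_, m2, ?_⟩
      rw [Metric.mem_ball, Real.dist_eq, er] at hα
      exact m3.trans_le (m1 α hα)
  have := dense_of_mem_residual (eventually_residual_irrational.and
    (eventually_countable_forall.2 key))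
  obtain ⟨α, h1, h2, h3⟩ := this.inter_open_nonempty (Set.Ioi (1 / 2)) isOpen_Ioi ⟨1, by norm_num⟩
  refine ⟨α, h1, h2, fun hO => ?_⟩
  obtain ⟨C, hC⟩ := hO.bound
  obtain ⟨N0, hN0⟩ := eventually_atTop.1 hC
  obtain ⟨k, hk⟩ := exists_nat_ge (max C N0)
  obtain ⟨N, n1, n2⟩ := (h3 k).resolve_left (not_le.2 h1)
  have k1 : N0 ≤ k := by exact_mod_cast (le_max_right _ _).trans hk
  have := hN0 N (k1.trans n1)
  rw [Real.norm_eq_abs, Real.norm_eq_abs] at this
  have := le_abs_self (dK α 1 (1 / 2) N)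
  have := mul_le_mul_of_nonneg_right ((le_max_left _ _).trans hk) (abs_nonneg (η N))
  linarith

end Pool.Agent.H.MP_02e1b1_nt
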